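import Pool.Agent.helper96.S5.SpecR

set_option autoImplicit false

namespace S5

open PF

open Classical

theorem FAI_row : FAI_stmt := by
  intro A n hA t0
  by_contra hcon
  push Not at hcon
  have hc := hst_count_const A (n + 1) t0 hcon
  set c := (hst A t0).count (n + 1) with hcdef
  have hmono : Monotone fun t => ∑ m ∈ Finset.range (n + c + 1),
      min ((hst A t).count (m + 1)) (n + c + 1) := by
    intro s t hst'
    refine Finset.sum_le_sum fun m _ => ?_
    have := hst_count_mono A (m + 1) hst'
    simp only at this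
    exact min_le_min this le_rfl
  have hb : ∀ t, ∑ m ∈ Finset.range (n + c + 1), min ((hst A t).count (m + 1)) (n + c + 1) ≤
      (n + c + 1) * (n + c + 1) := by
    intro t
    have h1 : ∑ m ∈ Finset.range (n + c + 1), min ((hst A t).count (m + 1)) (n + c + 1) ≤
        ∑ m ∈ Finset.range (n + c + 1), (n + c + 1) :=
      Finset.sum_le_sum fun m _ => min_le_right _ _
    rw [Finset.sum_const, Finset.card_range, smul_eq_mul] at h1
    exact h1
  have hstep : ∀ t, t0 ≤ t → A t (hst A t) n →
      ∑ m ∈ Finset.range (n + c + 1), min ((hst A t).count (m + 1)) (n + c + 1) <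
      ∑ m ∈ Finset.range (n + c + 1), min ((hst A (t + 1)).count (m + 1)) (n + c + 1) := by
    intro t ht h
    have h0 : sel A t ≠ 0 := amo_ne_zero ⟨n, h⟩
    obtain ⟨m, hm⟩ := Nat.exists_eq_succ_of_ne_zero h0
    have h1 := (amo_succ (A := A t (hst A t)) (H := hst A t) (n := m) hm).2 n h
    rw [hc t ht] at h1
    refine Finset.sum_lt_sum (fun i _ => ?_) ⟨m, ?_, ?_⟩
    · have := hst_count_mono A (i + 1) (Nat.le_succ t)
      simp only at this
      exact min_le_min this le_rfl
    · rw [Finset.mem_range]
      omega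
    · rw [hst_count_succ, if_pos hm]
      rw [lt_min_iff]
      constructor
      · exact lt_of_le_of_lt (min_le_left _ _) (Nat.lt_succ_self _)
      · exact lt_of_le_of_lt (min_le_left _ _) (by omega)
  have hunb : ∀ k, ∃ t, t0 ≤ t ∧
      k ≤ ∑ m ∈ Finset.range (n + c + 1), min ((hst A t).count (m + 1)) (n + c + 1) := by
    intro k
    induction k with
    | zero => exact ⟨t0, le_rfl, Nat.zero_le _⟩
    | succ k ih =>
      obtain ⟨t, ht, hk⟩ := ih
      obtain ⟨t', ht', hA'⟩ := hA t
      refine ⟨t' + 1, by omega, ?_⟩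
      have h1 := hstep t' (ht.trans ht') hA'
      have h2 := hmono ht'
      simp only at h2
      omega
  obtain ⟨t, _, hk⟩ := hunb ((n + c + 1) * (n + c + 1) + 1)
  have := hb t
  omega

end S5
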