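import Pool.Agent.helper96.S5.SpecV

set_option autoImplicit false

namespace S5

open PF

open Classical

theorem LIV_row (hJFN : JFN_stmt) (hJCP : JCP_stmt) : LIV_stmt := by
  intro X p hX hp R hJ hle
  obtain ⟨K, hK⟩ := hJFN X p hX hp R hJ
  obtain ⟨h0, hp0⟩ := hp.p0
  rw [hp0, mk_le] at hle
  have hle' : (R.1 \ (X.sA ∪ X.sL)).Infinite := hle
  have hex : ∃ k, k ∉ X.N ∧ {z | z ∉ X.E ∧ Nat.pair k z ∈ R.1}.Infinite := by
    by_contra hcon
    push Not at hcon
    apply hle'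
    have h1 : (⋃ k ∈ {k | k < K ∧ k ∉ X.N}, (fun z => Nat.pair k z) '' {z | z ∉ X.E ∧ Nat.pair k z ∈ R.1}).Finite := by
      refine Set.Finite.biUnion ((Set.finite_lt_nat K).subset fun k hk => hk.1) ?_
      intro k hk
      have h2 := hcon k hk.2
      exact Set.Finite.image _ h2
    refine h1.subset ?_
    rintro x ⟨hxR, hx⟩
    have hxN : x.unpair.1 ∉ X.N := fun h => hx (Or.inr h)
    have hxE : x.unpair.2 ∉ X.E := fun h => hx (Or.inl h)
    have hpx : Nat.pair x.unpair.1 x.unpair.2 = x := Nat.pair_unpair x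
    have hxK : x.unpair.1 < K := by
      by_contra hge
      apply hK x.unpair.1 (not_lt.1 hge) hxN x.unpair.2
      rw [hpx]
      exact hxR
    refine Set.mem_biUnion (x := x.unpair.1) ⟨hxK, hxN⟩ ⟨x.unpair.2, ⟨hxE, ?_⟩, hpx⟩
    rw [hpx]
    exact hxR
  obtain ⟨k, hk, hinf⟩ := hex
  refine ⟨k, hk, ?_⟩
  have hcp : ComputablePred fun z => Nat.pair k z ∈ R.1 := by
    have h1 : Computable fun z : ℕ => Nat.pair k z :=
      (Primrec₂.natPair.comp (Primrec.const k) Primrec.id).to_comp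
    exact cp_comp (f := fun z => Nat.pair k z) h1 (hJCP X p hp R hJ)
  rcases hX.rm _ hcp with h | h
  · exact h
  · exact absurd h hinf

end S5
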